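import Pool.Agent.Q117.HI.Lower

/-! Highly irregular trees: the extremal family. -/

set_option autoImplicit false

namespace Q117.HI

open SimpleGraph Finset

/-- existence of a rooted piece -/
def PP (k : ℕ) (x : Bool) (D : Finset ℕ) (n a : ℕ) : Prop := Nonempty (Piece k x D n a)

lemma PP.leaf (k : ℕ) (x : Bool) : PP k x ∅ 1 (if x then 1 else 0) := ⟨leafPiece k x⟩

lemma PP.att {k : ℕ} {x : Bool} {D : Finset ℕ} {n a : ℕ} (A : PP k x D n a)
    {i : ℕ} {y : Bool} {D' : Finset ℕ} {m b : ℕ} (B : PP i y D' m b)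
    (h : (D'.card + 1 = i ∧ k ∉ D') ∧ (i ∉ D ∧ ¬ (x = true ∧ y = true))) :
    PP k x (insert i D) (n + m) (a + b) := by
  obtain ⟨A⟩ := A
  obtain ⟨B⟩ := B
  exact ⟨by
    classical
    convert attach A B h.1.1 h.1.2 h.2.1 h.2.2⟩

lemma PP.cast {k : ℕ} {x : Bool} {D : Finset ℕ} {n a : ℕ} (A : PP k x D n a)
    {D' : Finset ℕ} {n' a' : ℕ} (h1 : D = D') (h2 : n = n') (h3 : a = a') : PP k x D' n' a' := by
  subst h1 h2 h3
  exact A

lemma L1 : PP 1 true ∅ 1 1 := PP.leaf 1 true

lemma T20 : PP 2 false {1} 2 1 :=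
  ((PP.leaf 2 false).att L1 (by decide)).cast (by decide) rfl rfl

lemma T21 : PP 2 true {2} 3 2 :=
  ((PP.leaf 2 true).att T20 (by decide)).cast (by decide) rfl rfl

lemma T30 : PP 3 false {1, 2} 5 3 :=
  (((PP.leaf 3 false).att L1 (by decide)).att T21 (by decide)).cast (by decide) rfl rfl

lemma T31a : PP 3 true {2, 3} 8 5 :=
  (((PP.leaf 3 true).att T20 (by decide)).att T30 (by decide)).cast (by decide) rfl rfl

lemma T40 : PP 4 false {1, 2, 3} 13 8 :=
  ((((PP.leaf 4 false).att L1 (by decide)).att T21 (by decide)).att T31a (by decide)).cast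
    (by decide) rfl rfl

lemma T40' : PP 4 false {1, 2, 4} 18 11 :=
  ((((PP.leaf 4 false).att L1 (by decide)).att T21 (by decide)).att T40 (by decide)).cast
    (by decide) rfl rfl

lemma T31b : PP 3 true {3, 4} 24 15 :=
  (((PP.leaf 3 true).att T30 (by decide)).att T40' (by decide)).cast (by decide) rfl rfl

lemma T41 : PP 4 true {2, 3, 4} 21 13 :=
  ((((PP.leaf 4 true).att T20 (by decide)).att T30 (by decide)).att T40 (by decide)).cast
    (by decide) rfl rfl

lemma T50 : PP 5 false {1, 2, 3, 4} 50 31 :=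
  (((((PP.leaf 5 false).att L1 (by decide)).att T21 (by decide)).att T31b (by decide)).att T41
    (by decide)).cast (by decide) rfl rfl

lemma T50' : PP 5 false {1, 2, 3, 5} 79 49 :=
  (((((PP.leaf 5 false).att L1 (by decide)).att T21 (by decide)).att T31b (by decide)).att T50
    (by decide)).cast (by decide) rfl rfl

lemma Y0 : PP 4 true {3, 4, 5} 98 61 :=
  ((((PP.leaf 4 true).att T30 (by decide)).att T40 (by decide)).att T50' (by decide)).cast
    (by decide) rfl rfl

lemma T60 : PP 6 false {1, 2, 3, 4, 5} 177 110 :=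
  ((((((PP.leaf 6 false).att L1 (by decide)).att T21 (by decide)).att T31b (by decide)).att Y0
    (by decide)).att T50 (by decide)).cast (by decide) rfl rfl

lemma stepU {n a : ℕ} (Y : PP 4 true {3, 4, 5} n a) :
    PP 6 false {1, 2, 3, 4, 6} (206 + n) (128 + a) :=
  ((((((PP.leaf 6 false).att L1 (by decide)).att T21 (by decide)).att T31b (by decide)).att T60
    (by decide)).att Y (by decide)).cast (by decide) (by omega) (by simp)

lemma stepV {n a : ℕ} (Y : PP 4 true {3, 4, 5} n a) :
    PP 5 false {1, 2, 3, 6} (235 + n) (146 + a) :=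
  (((((PP.leaf 5 false).att L1 (by decide)).att T21 (by decide)).att T31b (by decide)).att
    (stepU Y) (by decide)).cast (by decide) (by omega) (by simp; omega)

lemma stepY {n a : ℕ} (Y : PP 4 true {3, 4, 5} n a) :
    PP 4 true {3, 4, 5} (254 + n) (158 + a) :=
  ((((PP.leaf 4 true).att T30 (by decide)).att T40 (by decide)).att (stepV Y) (by decide)).cast
    (by decide) (by omega) (by simp; omega)

lemma Yt (t : ℕ) : PP 4 true {3, 4, 5} (98 + 254 * t) (61 + 158 * t) := by
  induction t with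
  | zero => exact Y0
  | succ t ih => exact (stepY ih).cast rfl (by ring) (by ring)

lemma final_t (t : ℕ) : PP 4 true {2, 3, 4, 5} (100 + 254 * t) (62 + 158 * t) :=
  ((Yt t).att T20 (by decide)).cast (by decide) (by ring) (by ring)

lemma final_26 : PP 2 false {1, 3} 26 16 :=
  (((PP.leaf 2 false).att L1 (by decide)).att T31b (by decide)).cast (by decide) rfl rfl

theorem PP.tree {k : ℕ} {x : Bool} {D : Finset ℕ} {n a : ℕ} (A : PP k x D n a)
    (hD : D.card = k) : ∃ (V : Type) (_ : Fintype V) (G : SimpleGraph V), G.IsTree ∧ Hirr G ∧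
      Fintype.card V = n ∧ a ≤ G.indepNum := by
  obtain ⟨A⟩ := A
  refine ⟨A.V, A.ft, A.G, (A.final hD).1, (A.final hD).2, A.cardV, ?_⟩
  refine A.cardS.symm.le.trans ?_
  refine IsIndepSet.card_le_indepNum ?_
  intro u hu v hv _
  exact A.indep u hu v hv

theorem indepNum_le {V : Type*} [Fintype V] (G : SimpleGraph V) (hG : G.IsTree) (hH : Hirr G)
    (hn : 2 ≤ Fintype.card V) : 127 * G.indepNum + 22 ≤ 79 * Fintype.card V := by
  obtain ⟨S, hS⟩ := G.exists_isNIndepSet_indepNum
  rw [← hS.card_eq]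
  refine upper G hG hH hn S fun u hu v hv h => ?_
  exact hS.isIndepSet hu hv h.ne h

end Q117.HI
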