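import Pool.Agent.Q117.HI.Upper2

/-! Highly irregular trees: composition of rooted trees. -/

set_option autoImplicit false

namespace Q117.HI

open SimpleGraph Finset

/-- A rooted piece: `k` is the degree that the root is going to have, `D` is the set of the
degrees of the neighbours of the root that are already there. -/
structure Piece (k : ℕ) (x : Bool) (D : Finset ℕ) (n a : ℕ) where
  V : Type
  [ft : Fintype V]
  G : SimpleGraph V
  r : V
  d : V → ℕ
  S : Finset V
  conn : G.Connected
  cardV : Fintype.card V = n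
  cardS : S.card = a
  indep : ∀ u ∈ S, ∀ v ∈ S, ¬ G.Adj u v
  rS : r ∈ S → x = true
  dr : d r = k
  dgr : dg G r = D.card
  dgv : ∀ v, v ≠ r → dg G v = d v
  hi : ∀ v u w, G.Adj v u → G.Adj v w → u ≠ w → d u ≠ d w
  rD : ∀ u, G.Adj r u → d u ∈ D
  tot : ∑ v, dg G v + 2 = 2 * Fintype.card V

attribute [instance] Piece.ft

def leafPiece (k : ℕ) (x : Bool) : Piece k x ∅ 1 (if x then 1 else 0) where
  V := Unit
  G := ⊥
  r := ()
  d := fun _ => k
  S := if x then {()} else ∅
  conn := by
    rw [connected_iff]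
    exact ⟨fun a b => by rw [Subsingleton.elim a b], ⟨()⟩⟩
  cardV := by simp
  cardS := by cases x <;> simp
  indep := by simp
  rS := by cases x <;> simp
  dr := rfl
  dgr := by simp [dg]
  dgv := by
    intro v hv
    exact absurd (Subsingleton.elim _ _) hv
  hi := by simp
  rD := by simp
  tot := by simp [dg]

/-- the graph with an edge between the two roots -/
def joinG {V W : Type} (G : SimpleGraph V) (H : SimpleGraph W) (r : V) (s : W) :
    SimpleGraph (V ⊕ W) where
  Adj a b := match a, b with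
    | .inl u, .inl v => G.Adj u v
    | .inr u, .inr v => H.Adj u v
    | .inl u, .inr v => u = r ∧ v = s
    | .inr u, .inl v => u = s ∧ v = r
  symm := ⟨by
    rintro (u | u) (v | v) h
    · exact G.adj_symm h
    · exact ⟨h.2, h.1⟩
    · exact ⟨h.2, h.1⟩
    · exact H.adj_symm h⟩
  loopless := ⟨by
    rintro (u | u) h
    · exact G.irrefl h
    · exact H.irrefl h⟩

section join
variable {V W : Type} (G : SimpleGraph V) (H : SimpleGraph W) (r : V) (s : W)

lemma join_ll (u v : V) : (joinG G H r s).Adj (.inl u) (.inl v) ↔ G.Adj u v := Iff.rfl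
lemma join_rr (u v : W) : (joinG G H r s).Adj (.inr u) (.inr v) ↔ H.Adj u v := Iff.rfl
lemma join_lr (u : V) (v : W) : (joinG G H r s).Adj (.inl u) (.inr v) ↔ u = r ∧ v = s := Iff.rfl
lemma join_rl (u : W) (v : V) : (joinG G H r s).Adj (.inr u) (.inl v) ↔ u = s ∧ v = r := Iff.rfl

lemma join_conn (hG : G.Connected) (hH : H.Connected) : (joinG G H r s).Connected := by
  have h1 : ∀ u v, G.Reachable u v → (joinG G H r s).Reachable (.inl u) (.inl v) := by
    intro u v h
    exact h.map ⟨Sum.inl, fun {a b} h => h⟩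
  have h2 : ∀ u v, H.Reachable u v → (joinG G H r s).Reachable (.inr u) (.inr v) := by
    intro u v h
    exact h.map ⟨Sum.inr, fun {a b} h => h⟩
  have h3 : (joinG G H r s).Reachable (.inl r) (.inr s) :=
    Adj.reachable ((join_lr G H r s r s).2 ⟨rfl, rfl⟩)
  have h4 : ∀ z, (joinG G H r s).Reachable (.inl r) z := by
    rintro (u | u)
    · exact h1 _ _ (hG r u)
    · exact h3.trans (h2 _ _ (hH s u))
  rw [connected_iff]
  exact ⟨fun a b => (h4 a).symm.trans (h4 b), ⟨.inl r⟩⟩

variable [Fintype V] [Fintype W]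

lemma dg_inl_ne {v : V} (hv : v ≠ r) : dg (joinG G H r s) (.inl v) = dg G v := by
  unfold dg
  rw [← Set.ncard_image_of_injective _ (Sum.inl_injective (α := V) (β := W))]
  congr 1
  ext (u | u)
  · simp [join_ll]
  · simp [join_lr, hv]

lemma dg_inr_ne {v : W} (hv : v ≠ s) : dg (joinG G H r s) (.inr v) = dg H v := by
  unfold dg
  rw [← Set.ncard_image_of_injective _ (Sum.inr_injective (α := V) (β := W))]
  congr 1
  ext (u | u)
  · simp [join_rl, hv]
  · simp [join_rr]

lemma dg_inl : dg (joinG G H r s) (.inl r) = dg G r + 1 := by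
  unfold dg
  rw [← Set.ncard_image_of_injective (G.neighborSet r) (Sum.inl_injective (α := V) (β := W)),
    ← Set.ncard_insert_of_notMem (a := Sum.inr s) (by simp) (Set.toFinite _)]
  congr 1
  ext (u | u)
  · simp [join_ll]
  · simp [join_lr]

lemma dg_inr : dg (joinG G H r s) (.inr s) = dg H s + 1 := by
  unfold dg
  rw [← Set.ncard_image_of_injective (H.neighborSet s) (Sum.inr_injective (α := V) (β := W)),
    ← Set.ncard_insert_of_notMem (a := Sum.inl r) (by simp) (Set.toFinite _)]
  congr 1
  ext (u | u)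
  · simp [join_rl]
  · simp [join_rr]

lemma dg_inl_ite (v : V) : dg (joinG G H r s) (.inl v) = dg G v + (Set.indicator {r} 1 v : ℕ) := by
  by_cases hv : v = r
  · subst hv; rw [dg_inl]; simp
  · rw [dg_inl_ne G H r s hv]; simp [hv]

lemma dg_inr_ite (v : W) : dg (joinG G H r s) (.inr v) = dg H v + (Set.indicator {s} 1 v : ℕ) := by
  by_cases hv : v = s
  · subst hv; rw [dg_inr]; simp
  · rw [dg_inr_ne G H r s hv]; simp [hv]

lemma sum_ind {V : Type} [Fintype V] (r : V) : ∑ v, (Set.indicator {r} 1 v : ℕ) = 1 := by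
  classical
  simp [Set.indicator_apply]

end join

open Classical in
/-- attach a piece to the root -/
noncomputable def attach {k : ℕ} {x : Bool} {D : Finset ℕ} {n a : ℕ} (A : Piece k x D n a)
    {i : ℕ} {y : Bool} {D' : Finset ℕ} {m b : ℕ} (B : Piece i y D' m b)
    (hi : D'.card + 1 = i) (hk : k ∉ D') (hiD : i ∉ D) (hxy : ¬ (x = true ∧ y = true)) :
    Piece k x (insert i D) (n + m) (a + b) where
  V := A.V ⊕ B.V
  G := joinG A.G B.G A.r B.r
  r := .inl A.r
  d := Sum.elim A.d B.d
  S := A.S.disjSum B.S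
  conn := join_conn _ _ _ _ A.conn B.conn
  cardV := by rw [Fintype.card_sum, A.cardV, B.cardV]
  cardS := by rw [card_disjSum, A.cardS, B.cardS]
  indep := by
    rintro (u | u) hu (v | v) hv
    · rw [inl_mem_disjSum] at hu hv
      exact A.indep u hu v hv
    · rw [inl_mem_disjSum] at hu
      rw [inr_mem_disjSum] at hv
      rintro ⟨rfl, rfl⟩
      exact hxy ⟨A.rS hu, B.rS hv⟩
    · rw [inl_mem_disjSum] at hv
      rw [inr_mem_disjSum] at hu
      rintro ⟨rfl, rfl⟩
      exact hxy ⟨A.rS hv, B.rS hu⟩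
    · rw [inr_mem_disjSum] at hu hv
      exact B.indep u hu v hv
  rS := by
    rw [inl_mem_disjSum]
    exact A.rS
  dr := A.dr
  dgr := by
    rw [dg_inl, A.dgr, card_insert_of_notMem hiD]
  dgv := by
    rintro (v | v) hv
    · rw [dg_inl_ne _ _ _ _ (fun h => hv (by rw [h]))]
      exact A.dgv v (fun h => hv (by rw [h]))
    · by_cases hvs : v = B.r
      · subst hvs
        rw [dg_inr, B.dgr, hi]
        exact B.dr.symm
      · rw [dg_inr_ne _ _ _ _ hvs]
        exact B.dgv v hvs
  hi := by
    rintro (v | v) (u | u) (w | w) h1 h2 hne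
    · exact A.hi v u w h1 h2 (fun h => hne (by rw [h]))
    · obtain ⟨rfl, rfl⟩ := h2
      intro h
      have h3 := A.rD u h1
      simp only [Sum.elim_inl, Sum.elim_inr] at h
      rw [h, B.dr] at h3
      exact hiD h3
    · obtain ⟨rfl, rfl⟩ := h1
      intro h
      have h3 := A.rD w h2
      simp only [Sum.elim_inl, Sum.elim_inr] at h
      rw [← h, B.dr] at h3
      exact hiD h3
    · obtain ⟨-, rfl⟩ := h1
      obtain ⟨-, rfl⟩ := h2
      exact absurd rfl hne
    · obtain ⟨-, rfl⟩ := h1
      obtain ⟨-, rfl⟩ := h2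
      exact absurd rfl hne
    · obtain ⟨rfl, rfl⟩ := h1
      intro h
      have h3 := B.rD w h2
      simp only [Sum.elim_inl, Sum.elim_inr] at h
      rw [← h, A.dr] at h3
      exact hk h3
    · obtain ⟨rfl, rfl⟩ := h2
      intro h
      have h3 := B.rD u h1
      simp only [Sum.elim_inl, Sum.elim_inr] at h
      rw [h, A.dr] at h3
      exact hk h3
    · exact B.hi v u w h1 h2 (fun h => hne (by rw [h]))
  rD := by
    rintro (u | u) h
    · exact mem_insert_of_mem (A.rD u h)
    · obtain ⟨-, rfl⟩ := h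
      simp only [Sum.elim_inr, B.dr]
      exact mem_insert_self _ _
  tot := by
    rw [Fintype.sum_sum_type]
    simp only [dg_inl_ite, dg_inr_ite]
    rw [sum_add_distrib, sum_add_distrib, sum_ind, sum_ind, Fintype.card_sum]
    have h1 := A.tot
    have h2 := B.tot
    omega

theorem Piece.final {k : ℕ} {x : Bool} {D : Finset ℕ} {n a : ℕ} (A : Piece k x D n a)
    (hD : D.card = k) : A.G.IsTree ∧ Hirr A.G := by
  classical
  have hd : ∀ v, dg A.G v = A.d v := by
    intro v
    by_cases hv : v = A.r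
    · rw [hv, A.dgr, A.dr, hD]
    · exact A.dgv v hv
  constructor
  · rw [isTree_iff_connected_and_card]
    refine ⟨A.conn, ?_⟩
    have h1 := A.G.sum_degrees_eq_twice_card_edges
    have h2 : ∑ v, A.G.degree v = ∑ v, dg A.G v := by
      refine sum_congr rfl fun v _ => ?_
      unfold dg
      rw [Set.ncard_eq_toFinset_card']
      rfl
    have h3 := A.tot
    rw [Nat.card_eq_fintype_card, Nat.card_eq_fintype_card, ← edgeFinset_card]
    omega
  · intro v u w h1 h2 h3
    rw [hd, hd]
    exact A.hi v u w h1 h2 h3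

end Q117.HI
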