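import Mathlib

/-! Highly irregular trees: the upper bound `127 α + 22 ≤ 79 n`. -/

set_option autoImplicit false

namespace Q117.HI

open SimpleGraph Finset

/-! ### rooted structure on a tree -/

section root
variable {ι : Type*}

lemma unique_up {T : SimpleGraph ι} (hT : T.IsTree) (r i j k : ι) (hj : T.Adj i j) (hk : T.Adj i k)
    (dj : T.dist r i = T.dist r j + 1) (dk : T.dist r i = T.dist r k + 1) : j = k := by
  classical
  obtain ⟨p, hp, hpl⟩ := (hT.connected r j).exists_path_of_dist
  obtain ⟨q, hq, hql⟩ := (hT.connected r k).exists_path_of_dist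
  have hip : i ∉ p.support := by
    intro h
    have h1 := dist_le (p.takeUntil i h)
    have h2 := Walk.length_takeUntil_le p h
    omega
  have hiq : i ∉ q.support := by
    intro h
    have h1 := dist_le (q.takeUntil i h)
    have h2 := Walk.length_takeUntil_le q h
    omega
  have hp' : (p.concat hj.symm).IsPath := hp.concat hip hj.symm
  have hq' : (q.concat hk.symm).IsPath := hq.concat hiq hk.symm
  have e := hT.IsAcyclic.path_unique ⟨_, hp'⟩ ⟨_, hq'⟩
  have e' : p.concat hj.symm = q.concat hk.symm := by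
    simpa using congrArg Subtype.val e
  have e2 : (p.concat hj.symm).penultimate = (q.concat hk.symm).penultimate := by rw [e']
  simpa using e2

lemma exists_up {T : SimpleGraph ι} (hT : T.IsTree) (r i : ι) (h : i ≠ r) :
    ∃ j, T.Adj i j ∧ T.dist r i = T.dist r j + 1 := by
  obtain ⟨p, hp, hpl⟩ := (hT.connected i r).exists_path_of_dist
  cases p with
  | nil => exact absurd rfl h
  | @cons _ j _ hij q =>
    refine ⟨j, hij, ?_⟩
    have h1 : T.dist i r = q.length + 1 := by rw [← hpl]; simp
    have h2 := dist_le q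
    have h3 := hT.dist_eq_dist_add_one_of_adj r hij
    rw [dist_comm (u := r) (v := i), dist_comm (u := r) (v := j)] at *
    omega

theorem exists_root {T : SimpleGraph ι} (hT : T.IsTree) (r : ι) :
    ∃ (par : ι → ι), (∀ i, i ≠ r → T.Adj i (par i)) ∧ par r = r ∧
      (∀ i j, T.Adj i j → (par i = j ∧ par j ≠ i ∧ i ≠ r) ∨
        (par j = i ∧ par i ≠ j ∧ j ≠ r)) := by
  classical
  choose f hf using fun i : {i : ι // i ≠ r} => exists_up hT r i.1 i.2
  refine ⟨fun i => if h : i = r then r else f ⟨i, h⟩, ?_, by simp, ?_⟩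
  · intro i hi
    simp only [hi, dite_false]
    exact (hf ⟨i, hi⟩).1
  · have key : ∀ i j, T.Adj i j → T.dist r i = T.dist r j + 1 →
        (if h : i = r then r else f ⟨i, h⟩) = j ∧ (if h : j = r then r else f ⟨j, h⟩) ≠ i
          ∧ i ≠ r := by
      intro i j hij hd
      have hi : i ≠ r := by
        rintro rfl
        simp at hd
      refine ⟨?_, ?_, hi⟩
      · simp only [hi, dite_false]
        exact unique_up hT r i _ _ (hf ⟨i, hi⟩).1 hij (hf ⟨i, hi⟩).2 hd
      · by_cases hj : j = r
        · simp only [hj, dite_true]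
          exact fun h => hi h.symm
        · simp only [hj, dite_false]
          intro h
          have := (hf ⟨j, hj⟩).2
          rw [h] at this
          simp only at this
          omega
    intro i j hij
    rcases hT.dist_eq_dist_add_one_of_adj r hij with h | h
    · left; exact key i j hij h
    · right; exact key j i hij.symm h

end root

/-! ### the certificate -/

/-- certificate values, vertex not in the independent set -/
def P0 : ℕ → ℕ → ℤ
  | 1, _ => -79
  | 2, 1 => -70 | 2, _ => -31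
  | 3, 1 => -70 | 3, 2 => -39 | 3, _ => -14
  | 4, 1 => -70 | 4, 2 => -39 | 4, 3 => -25 | 4, _ => -11
  | 5, 1 => -74 | 5, 2 => -43 | 5, 3 => -35 | 5, 4 => -18 | 5, _ => -13
  | 6, 1 => -74 | 6, 2 => -43 | 6, 3 => -35 | 6, 4 => -31 | 6, _ => -13
  | _, 1 => -80 | _, 2 => -49 | _, 3 => -41 | _, 4 => -37 | _, 5 => -29 | _, 6 => -19 | _, _ => -16

/-- certificate values, vertex in the independent set -/
def P1 : ℕ → ℕ → ℤ
  | 1, _ => 48
  | 2, 2 => 9 | 2, _ => 17
  | 3, 3 => -8 | 3, 4 => 3 | 3, _ => 9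
  | 4, 3 => -12 | 4, 4 => -15 | 4, 5 => -8 | 4, _ => 5
  | 5, 3 => -18 | 5, 4 => -21 | 5, 5 => -19 | 5, 6 => -19 | 5, _ => -3
  | 6, 3 => -27 | 6, 4 => -30 | 6, 5 => -28 | 6, 6 => -28 | 6, _ => -22
  | _, _ => -35

/-- certificate: `k` degree of the vertex, `j` degree of its parent, `x` membership -/
def P (k j : ℕ) (x : Bool) : ℤ := if x then P1 (min k 7) (min j 7) else P0 (min k 7) (min j 7)

/-- best value of a child of degree `i` of a vertex of degree `k` -/
def ph (i k : ℕ) (x : Bool) : ℤ := if x then P i k false else max (P i k false) (P i k true)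

def tau : ℕ → ℕ → Bool → ℤ
  | 1, _, _ => 48
  | 2, _, false => 9 | 2, _, true => -39
  | 3, 1, false => -12 | 3, 2, false => -12 | 3, 3, false => -12 | 3, _, false => -8
  | 3, 1, true => -31 | 3, 2, true => -35 | 3, 3, true => -35 | 3, 4, true => -35
  | 3, _, true => -31
  | 4, 1, false => -18 | 4, 2, false => -18 | 4, 3, false => -18 | 4, 4, false => -18
  | 4, _, false => -11
  | 4, _, true => -31
  | 5, _, false => -13 | 5, _, true => -29
  | 6, 7, false => -13
  | 6, _, _ => -19
  | _, _, _ => -16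

/-- the value of `127 x` -/
def bx (x : Bool) : ℤ := if x then 127 else 0

lemma ph_clip (i k : ℕ) (x : Bool) : ph i k x = ph (min i 7) (min k 7) x := by
  unfold ph P
  simp only [min_assoc, min_self]

lemma P_clip (k j : ℕ) (x : Bool) : P k j x = P (min k 7) (min j 7) x := by
  unfold P
  simp only [min_assoc, min_self]

lemma check : ∀ k ∈ Finset.Icc 1 7, ∀ j ∈ Finset.Icc 1 7, ∀ x : Bool,
    ph 7 k x ≤ tau k j x ∧
    ((k : ℤ) - 1) * tau k j x + ∑ i ∈ (Finset.Icc 1 6).erase j, max (ph i k x - tau k j x) 0 ≤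
      P k j x - bx x + 79 := by
  decide +kernel

lemma threshold (D : Finset ℕ) (φ : ℕ → ℤ) (τ : ℤ) (j : ℕ) (h0 : 0 ∉ D) (hj : j ∉ D)
    (h7 : ∀ i, 7 ≤ i → φ i ≤ τ) :
    ∑ i ∈ D, φ i ≤ D.card * τ + ∑ i ∈ (Finset.Icc 1 6).erase j, max (φ i - τ) 0 := by
  have h1 : ∑ i ∈ D, φ i = D.card * τ + ∑ i ∈ D, (φ i - τ) := by
    rw [sum_sub_distrib]; simp
  rw [h1]
  have h2 : ∑ i ∈ D, (φ i - τ) ≤ ∑ i ∈ D, max (φ i - τ) 0 :=
    sum_le_sum fun i _ => le_max_left _ _
  have h3 : ∑ i ∈ D, max (φ i - τ) 0 = ∑ i ∈ D.filter (· < 7), max (φ i - τ) 0 := by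
    rw [sum_filter]
    refine sum_congr rfl fun i _ => ?_
    split_ifs with h
    · rfl
    · exact max_eq_right (by linarith [h7 i (by omega)])
  have h4 : ∑ i ∈ D.filter (· < 7), max (φ i - τ) 0 ≤
      ∑ i ∈ (Finset.Icc 1 6).erase j, max (φ i - τ) 0 := by
    refine sum_le_sum_of_subset_of_nonneg ?_ fun _ _ _ => le_max_right _ _
    intro i hi
    rw [mem_filter] at hi
    rw [mem_erase, mem_Icc]
    refine ⟨fun h => hj (h ▸ hi.1), ?_, by omega⟩
    rcases Nat.eq_zero_or_pos i with h | h
    · exact absurd (h ▸ hi.1) h0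
    · exact h
  linarith

lemma local_ineq (k j : ℕ) (x : Bool) (D : Finset ℕ) (hD : D.card + 1 = k) (h0 : 0 ∉ D)
    (hj : j ∉ D) (hj1 : 1 ≤ j) : bx x - 79 + ∑ i ∈ D, ph i k x ≤ P k j x := by
  have hk : 1 ≤ k := by omega
  obtain ⟨c1, c2⟩ := check (min k 7) (by rw [mem_Icc]; omega) (min j 7) (by rw [mem_Icc]; omega) x
  set τ := tau (min k 7) (min j 7) x with hτ
  have ht := threshold D (fun i => ph i k x) τ j h0 hj (by
    intro i hi
    rw [ph_clip, min_eq_right hi]
    exact c1)
  have he : (Finset.Icc 1 6).erase j = (Finset.Icc 1 6).erase (min j 7) := by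
    rcases le_total j 7 with h | h
    · rw [min_eq_left h]
    · rw [min_eq_right h, erase_eq_of_notMem, erase_eq_of_notMem]
      · simp
      · rw [mem_Icc]; omega
  have hs : ∑ i ∈ (Finset.Icc 1 6).erase j, max (ph i k x - τ) 0 =
      ∑ i ∈ (Finset.Icc 1 6).erase (min j 7), max (ph i (min k 7) x - τ) 0 := by
    rw [he]
    refine sum_congr rfl fun i hi => ?_
    rw [mem_erase, mem_Icc] at hi
    rw [ph_clip i k, ph_clip i (min k 7), min_assoc, min_self]
  rw [hs] at ht
  rw [P_clip k j]
  have hτk : (D.card : ℤ) * τ ≤ ((min k 7 : ℕ) - 1 : ℤ) * τ := by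
    rcases le_total k 7 with h | h
    · rw [min_eq_left h]
      apply le_of_eq
      congr 1
      omega
    · rw [min_eq_right h]
      have : τ = -16 := by
        rw [hτ, min_eq_right h]
        rcases x <;> rfl
      rw [this]
      have h7 : (6 : ℤ) ≤ D.card := by omega
      push_cast
      linarith
  linarith

end Q117.HI
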