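import Pool.Agent.Q117.HI.Upper

/-! Highly irregular trees: the upper bound `127 α + 22 ≤ 79 n`, summation. -/

set_option autoImplicit false

namespace Q117.HI

open SimpleGraph Finset

/-- The degree. -/
noncomputable def dg {V : Type*} (G : SimpleGraph V) (v : V) : ℕ := (G.neighborSet v).ncard

/-- Highly irregular: distinct neighbours of a vertex have distinct degrees. -/
def Hirr {V : Type*} (G : SimpleGraph V) : Prop :=
  ∀ v u w, G.Adj v u → G.Adj v w → u ≠ w → dg G u ≠ dg G w

lemma root_check : ∀ k ∈ Finset.Icc 1 7, ∀ x y : Bool, ¬ (x = true ∧ y = true) →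
    bx x - 79 + P k 1 y ≤ -22 := by
  decide +kernel

lemma root_ineq (k : ℕ) (hk : 1 ≤ k) (x y : Bool) (h : ¬ (x = true ∧ y = true)) :
    bx x - 79 + P k 1 y ≤ -22 := by
  have := root_check (min k 7) (by rw [mem_Icc]; omega) x y h
  rw [P_clip] at this ⊢
  simpa [min_assoc] using this

theorem upper {V : Type*} [Fintype V] (G : SimpleGraph V) (hG : G.IsTree) (hH : Hirr G)
    (hn : 2 ≤ Fintype.card V) (S : Finset V) (hS : ∀ u ∈ S, ∀ v ∈ S, ¬ G.Adj u v) :
    127 * S.card + 22 ≤ 79 * Fintype.card V := by
  classical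
  have : Nontrivial V := Fintype.one_lt_card_iff_nontrivial.1 (by omega)
  obtain ⟨r, hr⟩ := hG.exists_vert_degree_one_of_nontrivial
  obtain ⟨par, hp1, hpr, hp2⟩ := exists_root hG r
  have hdg : ∀ v, dg G v = (G.neighborFinset v).card := by
    intro v
    unfold dg
    exact Set.ncard_eq_toFinset_card' _
  let Ch : V → Finset V := fun v => univ.filter fun w => w ≠ r ∧ par w = v
  have hCh : ∀ v w, w ∈ Ch v ↔ w ≠ r ∧ par w = v := by
    intro v w; simp [Ch]
  have hChadj : ∀ v w, w ∈ Ch v → G.Adj v w := by
    intro v w hw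
    rw [hCh] at hw
    have := hp1 w hw.1
    rw [hw.2] at this
    exact this.symm
  have hparCh : ∀ v, v ≠ r → par v ∉ Ch v := by
    intro v hv hc
    rw [hCh] at hc
    rcases hp2 v (par v) (hp1 v hv) with h | h
    · exact h.2.1 hc.2
    · exact h.2.1 rfl
  have hN : ∀ v, v ≠ r → G.neighborFinset v = insert (par v) (Ch v) := by
    intro v hv
    ext w
    rw [mem_neighborFinset, mem_insert, hCh]
    constructor
    · intro h
      rcases hp2 v w h with h1 | h1
      · exact Or.inl h1.1.symm
      · exact Or.inr ⟨h1.2.2, h1.1⟩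
    · rintro (h | h)
      · rw [h]; exact hp1 v hv
      · have := hp1 w h.1
        rw [h.2] at this
        exact this.symm
  have hNr : G.neighborFinset r = Ch r := by
    ext w
    rw [mem_neighborFinset, hCh]
    constructor
    · intro h
      rcases hp2 r w h with h1 | h1
      · exact absurd rfl h1.2.2
      · exact ⟨h1.2.2, h1.1⟩
    · intro h
      have := hp1 w h.1
      rw [h.2] at this
      exact this.symm
  have hcard : ∀ v, v ≠ r → (Ch v).card + 1 = dg G v := by
    intro v hv
    rw [hdg, hN v hv, card_insert_of_notMem (hparCh v hv)]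
  have hcr : (Ch r).card = 1 := by
    rw [← hNr, SimpleGraph.card_neighborFinset_eq_degree]
    convert hr
  have hpos : ∀ u v, G.Adj u v → 1 ≤ dg G v := by
    intro u v h
    rw [hdg]
    exact card_pos.2 ⟨u, by rw [mem_neighborFinset]; exact h.symm⟩
  let x : V → Bool := fun v => decide (v ∈ S)
  have hx : ∀ u v, G.Adj u v → ¬ (x u = true ∧ x v = true) := by
    rintro u v h ⟨h1, h2⟩
    simp only [x, decide_eq_true_eq] at h1 h2
    exact hS u h1 v h2 h
  let F : V → ℤ := fun v => P (dg G v) (dg G (par v)) (x v)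
  have hloc : ∀ v, v ≠ r → bx (x v) - 79 + ∑ w ∈ Ch v, F w ≤ F v := by
    intro v hv
    have hinj : Set.InjOn (dg G) (Ch v : Set V) := by
      intro a ha b hb hab
      by_contra hne
      exact hH v a b (hChadj v a ha) (hChadj v b hb) hne hab
    have h1 := local_ineq (dg G v) (dg G (par v)) (x v) ((Ch v).image (dg G))
      (by rw [card_image_of_injOn hinj]; exact hcard v hv)
      (by
        intro h
        rw [mem_image] at h
        obtain ⟨w, hw, hw0⟩ := h
        have := hpos v w (hChadj v w hw)
        omega)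
      (by
        intro h
        rw [mem_image] at h
        obtain ⟨w, hw, hw0⟩ := h
        refine hH v w (par v) (hChadj v w hw) (hp1 v hv) ?_ hw0
        rintro rfl
        exact hparCh v hv hw)
      (hpos v (par v) (hp1 v hv))
    rw [sum_image hinj] at h1
    have h2 : ∑ w ∈ Ch v, F w ≤ ∑ w ∈ Ch v, ph (dg G w) (dg G v) (x v) := by
      refine sum_le_sum fun w hw => ?_
      have hpw : par w = v := ((hCh v w).1 hw).2
      simp only [F, hpw, ph]
      have hxx := hx v w (hChadj v w hw)
      cases hxv : x v <;> cases hxw : x w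
      · simp
      · simp
      · simp
      · exact absurd ⟨hxv, hxw⟩ hxx
    linarith
  have hsum := sum_le_sum (s := univ.filter fun v => v ≠ r) fun v hv =>
    hloc v (by simpa using hv)
  rw [sum_add_distrib] at hsum
  have hfib : ∑ v : V, ∑ w ∈ Ch v, F w = ∑ w ∈ univ.filter (fun w => w ≠ r), F w := by
    rw [← sum_fiberwise (univ.filter fun w => w ≠ r) par F]
    refine sum_congr rfl fun v _ => ?_
    refine sum_congr ?_ fun _ _ => rfl
    ext w
    simp [hCh]
  have hsplit : ∑ v : V, ∑ w ∈ Ch v, F w = ∑ w ∈ Ch r, F w +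
      ∑ v ∈ univ.filter (fun v => v ≠ r), ∑ w ∈ Ch v, F w := by
    rw [← sum_filter_add_sum_filter_not univ (fun v => v = r)]
    congr 1
    rw [filter_eq' univ r, if_pos (mem_univ _), sum_singleton]
  obtain ⟨c, hc⟩ := card_eq_one.1 hcr
  have hcCh : c ∈ Ch r := by rw [hc]; exact mem_singleton_self _
  have hadjc := hChadj r c hcCh
  have hparc : par c = r := ((hCh r c).1 hcCh).2
  rw [hc, sum_singleton] at hsplit
  have hFc : F c = P (dg G c) 1 (x c) := by
    simp only [F, hparc]
    congr 1
    rw [hdg, hNr, hcr]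
  have hroot := root_ineq (dg G c) (hpos r c hadjc) (x r) (x c) (hx r c hadjc)
  have htot : ∑ v : V, (bx (x v) - 79) = bx (x r) - 79 +
      ∑ v ∈ univ.filter (fun v => v ≠ r), (bx (x v) - 79) := by
    rw [← sum_filter_add_sum_filter_not univ (fun v => v = r)]
    congr 1
    rw [filter_eq' univ r, if_pos (mem_univ _), sum_singleton]
  have htot2 : ∑ v : V, (bx (x v) - 79) = 127 * (S.card : ℤ) - 79 * (Fintype.card V : ℤ) := by
    rw [sum_sub_distrib]
    have : ∑ v : V, bx (x v) = 127 * (S.card : ℤ) := by
      have h1 : ∀ v : V, bx (x v) = if v ∈ S then 127 else 0 := by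
        intro v
        simp only [bx, x, decide_eq_true_eq]
      simp only [h1]
      rw [sum_ite_mem, univ_inter, sum_const]
      simp [mul_comm]
    rw [this]
    simp [mul_comm]
  have : 127 * (S.card : ℤ) + 22 ≤ 79 * (Fintype.card V : ℤ) := by
    linarith
  exact_mod_cast this

end Q117.HI
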